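import Mathlib
import Pool.Agent.V11261.MT.Main

/-!
# The multivariate trace inequality holds with one constant for all `n` and `d`

For all positive semidefinite `A_1, ..., A_n` of any size `d`,
`Tr √(∑ A_j²) - ∑ Tr A_j ≥ 350 ∑_{j<k} (‖A_j - A_k‖₁ - Tr (A_j + A_k))`.

Idea: let `v_a` be all eigenvectors of all `A_j`, with eigenvalues `λ_a`.  For every family `w_a`
with `∑ |w_a⟩⟨w_a| ≤ 1` one has `Tr √(∑ A_j²) ≥ ∑ λ_a Re ⟨w_a, v_a⟩`.  Group the `v_a` by the scale
of `λ_a` (powers of `25`) and orthonormalise scale by scale, from large to small eigenvalues.  The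
loss at a scale is bounded by overlaps within the scale, overlaps with the larger scales and the
total loss at the larger scales; since the weights decrease geometrically the total loss is at most
`175 ∑_{a ≠ b} min(λ_a, λ_b) |⟨v_a, v_b⟩|²`, and the Nussbaum and Szkola bound concludes.
-/

set_option autoImplicit false

namespace Pool.Agent.Results.MP_ebd556_mp.UniversalConstant

open Matrix
open scoped ComplexOrder

/-- `S` is the positive semidefinite square root of `M` -/
def IsSqrt {d : ℕ} (S M : Matrix (Fin d) (Fin d) ℂ) : Prop := S.PosSemidef ∧ S * S = M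

/-- `T = |X|`, the positive semidefinite square root of `X* X` -/
def IsAbs {d : ℕ} (T X : Matrix (Fin d) (Fin d) ℂ) : Prop := IsSqrt T (Xᴴ * X)

theorem result : ∀ (n d : ℕ) (A : Fin n → Matrix (Fin d) (Fin d) ℂ), (∀ j, (A j).PosSemidef) →
    ∀ S : Matrix (Fin d) (Fin d) ℂ, IsSqrt S (∑ j, A j * A j) →
    ∀ T : Fin n → Fin n → Matrix (Fin d) (Fin d) ℂ, (∀ j k, IsAbs (T j k) (A j - A k)) →
    S.trace.re - ∑ j, (A j).trace.re ≥
      350 * ∑ j, ∑ k ∈ Finset.Ioi j, ((T j k).trace.re - (A j + A k).trace.re) :=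
  fun _ _ _ hA _ hS _ hT =>
    Pool.Agent.V11261.MT.main hA hS.1 hS.2 (fun j k => (hT j k).1) (fun j k => (hT j k).2)

end Pool.Agent.Results.MP_ebd556_mp.UniversalConstant
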